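import Pool.Agent.Helper54.DI.StmtsA

namespace Pool.Agent.Helper54.DI

open Finset Filter Topology

theorem cone_I_inj {d j : ℕ} (φ : NM d j) : Function.Injective φ.I := by
  intro m m' h
  have h1 := φ.hM m
  have h2 := φ.hM m'
  rw [h] at h1
  rw [h1] at h2
  by_contra hne
  have h3 := congrFun h2 m
  rw [Pi.single_eq_same, Pi.single_eq_of_ne hne] at h3
  exact one_ne_zero h3

/-- pull back of a form along a normalized map -/
noncomputable def coneComp {d j : ℕ} (φ : NM d j) (f : KForm j) : KForm d :=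
  (fun m => ∑ t, f.1 t * φ.M t m, ∑ t, f.1 t * φ.v t + f.2)

theorem cone_kev_comp {d j : ℕ} (φ : NM d j) (f : KForm j) (x : Fin d → ℝ) :
    kev (coneComp φ f) x = kev f (nev φ x) := by
  unfold kev coneComp nev
  push_cast
  simp only [mul_add, Finset.sum_add_distrib, Finset.mul_sum, Finset.sum_mul]
  rw [Finset.sum_comm]
  simp only [mul_assoc, add_assoc]

theorem cone_kev_affine {d : ℕ} (f : KForm d) (x y : Fin d → ℝ) (a b : ℝ) (hab : a + b = 1) :
    kev f (a • x + b • y) = a * kev f x + b * kev f y := by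
  unfold kev
  have h1 : ∑ i, (f.1 i : ℝ) * (a • x + b • y) i
      = a * ∑ i, (f.1 i : ℝ) * x i + b * ∑ i, (f.1 i : ℝ) * y i := by
    rw [Finset.mul_sum, Finset.mul_sum, ← Finset.sum_add_distrib]
    refine Finset.sum_congr rfl fun i _ => ?_
    simp only [Pi.add_apply, Pi.smul_apply, smul_eq_mul]
    ring
  rw [h1]
  have h2 : (f.2 : ℝ) = a * (f.2 : ℝ) + b * (f.2 : ℝ) := by
    rw [← add_mul, hab, one_mul]
  calc a * ∑ i, (f.1 i : ℝ) * x i + b * ∑ i, (f.1 i : ℝ) * y i + (f.2 : ℝ)
      = a * ∑ i, (f.1 i : ℝ) * x i + b * ∑ i, (f.1 i : ℝ) * y i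
        + (a * (f.2 : ℝ) + b * (f.2 : ℝ)) := by rw [← h2]
    _ = _ := by ring

/-- pull back of a form along the map that drops the coordinate `l` -/
noncomputable def conePull {d : ℕ} (l : Fin (d + 1)) (g : KForm d) : KForm (d + 1) :=
  (Fin.insertNth (α := fun _ => KK) l 0 g.1, g.2)

theorem cone_kev_pull {d : ℕ} (l : Fin (d + 1)) (g : KForm d) (p : Fin (d + 1) → ℝ) :
    kev (conePull l g) p = kev g (fun j => p (l.succAbove j)) := by
  unfold kev conePull
  rw [Fin.sum_univ_succAbove _ l]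
  simp

theorem cone_nonzero {u v a b : ℝ} (hu : u ≠ 0) (hs : SignType.sign u = SignType.sign v)
    (ha : 0 ≤ a) (hb : 0 ≤ b) (hab : a + b = 1) : a * u + b * v ≠ 0 := by
  rcases lt_or_gt_of_ne hu with h | h
  · have h1 : SignType.sign v = -1 := by rw [← hs]; exact sign_neg h
    have h2 : v < 0 := sign_eq_neg_one_iff.mp h1
    have h3 : a * u + b * v < 0 := by
      rcases eq_or_lt_of_le ha with h0 | h0
      · have : b = 1 := by rw [← h0] at hab; linarith
        rw [← h0, this]; linarith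
      · have := mul_neg_of_pos_of_neg h0 h
        have := mul_nonpos_of_nonneg_of_nonpos hb h2.le
        linarith
    exact h3.ne
  · have h1 : SignType.sign v = 1 := by rw [← hs]; exact sign_pos h
    have h2 : 0 < v := sign_eq_one_iff.mp h1
    have h3 : 0 < a * u + b * v := by
      rcases eq_or_lt_of_le ha with h0 | h0
      · have : b = 1 := by rw [← h0] at hab; linarith
        rw [← h0, this]; linarith
      · have := mul_pos h0 h
        have := mul_nonneg hb h2.le
        linarith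
    exact h3.ne'

theorem cone_kev_cont {d : ℕ} (f : KForm d) : Continuous (kev f) := by
  unfold kev
  fun_prop

theorem cone_ball {d : ℕ} (f : KForm d) (c : Fin d → ℝ) (h : kev f c ≠ 0) :
    ∃ ε > 0, ∀ p ∈ Metric.ball c ε, ∀ q ∈ Metric.ball c ε, ∀ t ∈ segment ℝ p q,
      kev f t ≠ 0 := by
  have h1 : ∀ᶠ t in 𝓝 c, kev f t ≠ 0 := (cone_kev_cont f).continuousAt.eventually_ne h
  obtain ⟨ε, hε, hb⟩ := Metric.eventually_nhds_iff_ball.1 h1
  exact ⟨ε, hε, fun p hp q hq t ht => hb t ((convex_ball c ε).segment_subset hp hq ht)⟩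

/-- the statement for one flat -/
def ConeP (d : ℕ) {j : ℕ} (B : Set (Fin j → ℝ)) (φ : NM d j) : Prop :=
  ∃ (H : List (KForm j)) (Z : List (KForm d)),
    (∀ h ∈ H, ∀ x, kev h (nev φ x) = 0) ∧
    (∀ p, (∀ h ∈ H, kev h p = 0) → p ∈ Set.range (nev φ)) ∧
    (∀ z ∈ Z, z.1 ≠ 0) ∧
    ∀ w : Fin d → ℝ, (∀ z ∈ Z, kev z w ≠ 0) → ∃ ε > 0,
      ∀ p ∈ Metric.ball (nev φ w) ε, ∀ q ∈ Metric.ball (nev φ w) ε,
        p ∉ Set.range (nev φ) → q ∉ Set.range (nev φ) →
        (∀ h ∈ H, SignType.sign (kev h p) = SignType.sign (kev h q)) → (p ∈ B ↔ q ∈ B)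

/-- the contribution of a list of hyperplanes -/
def ConeF (d : ℕ) {j : ℕ} (B : Set (Fin j → ℝ)) (φ : NM d j) (L : List (KForm j)) : Prop :=
  ∃ (H : List (KForm j)) (Z : List (KForm d)),
    (∀ h ∈ H, ∀ x, kev h (nev φ x) = 0) ∧ (∀ z ∈ Z, z.1 ≠ 0) ∧
    ∀ w : Fin d → ℝ, (∀ z ∈ Z, kev z w ≠ 0) → ∃ ε > 0,
      ∀ p ∈ Metric.ball (nev φ w) ε, ∀ q ∈ Metric.ball (nev φ w) ε,
        p ∉ Set.range (nev φ) → q ∉ Set.range (nev φ) →
        (∀ h ∈ H, SignType.sign (kev h p) = SignType.sign (kev h q)) →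
        (p ∈ B ↔ q ∈ B) ∨ ∀ f ∈ L, ∀ t ∈ segment ℝ p q, kev f t ≠ 0

theorem cone_append {d j : ℕ} (B : Set (Fin j → ℝ)) (φ : NM d j) (f : KForm j)
    (L : List (KForm j)) (h1 : ConeF d B φ [f]) (h2 : ConeF d B φ L) :
    ConeF d B φ (f :: L) := by
  obtain ⟨H1, Z1, a1, b1, c1⟩ := h1
  obtain ⟨H2, Z2, a2, b2, c2⟩ := h2
  refine ⟨H1 ++ H2, Z1 ++ Z2, ?_, ?_, ?_⟩
  · intro h hh
    rcases List.mem_append.1 hh with h' | h'
    · exact a1 h h'
    · exact a2 h h'
  · intro h hh
    rcases List.mem_append.1 hh with h' | h'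
    · exact b1 h h'
    · exact b2 h h'
  · intro w hw
    obtain ⟨e1, he1, g1⟩ := c1 w fun z hz => hw z (List.mem_append_left _ hz)
    obtain ⟨e2, he2, g2⟩ := c2 w fun z hz => hw z (List.mem_append_right _ hz)
    refine ⟨min e1 e2, lt_min he1 he2, fun p hp q hq hpr hqr hs => ?_⟩
    rcases g1 p (Metric.ball_subset_ball (min_le_left _ _) hp) q
      (Metric.ball_subset_ball (min_le_left _ _) hq) hpr hqr
      (fun h hh => hs h (List.mem_append_left _ hh)) with r1 | r1
    · exact Or.inl r1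
    rcases g2 p (Metric.ball_subset_ball (min_le_right _ _) hp) q
      (Metric.ball_subset_ball (min_le_right _ _) hq) hpr hqr
      (fun h hh => hs h (List.mem_append_right _ hh)) with r2 | r2
    · exact Or.inl r2
    refine Or.inr fun g hg => ?_
    rcases List.mem_cons.1 hg with h | h
    · exact r1 g (by rw [h]; exact List.mem_cons_self)
    · exact r2 g h

/-- forms vanishing on the flat have a nonzero coefficient outside the coordinates of the flat -/
theorem cone_index {d j : ℕ} (φ : NM d j) (f : KForm j) (hf : f.1 ≠ 0)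
    (h0 : (coneComp φ f).1 = 0) : ∃ l, (∀ m, φ.I m ≠ l) ∧ f.1 l ≠ 0 := by
  by_contra hcon
  push Not at hcon
  apply hf
  have key : ∀ m, f.1 (φ.I m) = 0 := by
    intro m
    have h1 := congrFun h0 m
    have h2 : (coneComp φ f).1 m = ∑ t, f.1 t * φ.M t m := rfl
    rw [h2, Finset.sum_eq_single (φ.I m)] at h1
    · rw [φ.hM, Pi.single_eq_same, mul_one] at h1
      exact h1
    · intro t _ ht
      by_cases hr : ∃ m', φ.I m' = t
      · obtain ⟨m', rfl⟩ := hr
        have hne : m ≠ m' := fun hh => ht (by rw [hh])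
        rw [φ.hM, Pi.single_eq_of_ne hne, mul_zero]
      · rw [hcon t fun m' hm' => hr ⟨m', hm'⟩, zero_mul]
    · intro h
      exact absurd (Finset.mem_univ _) h
  funext t
  by_cases hr : ∃ m', φ.I m' = t
  · obtain ⟨m', rfl⟩ := hr
    exact key m'
  · exact hcon t fun m' hm' => hr ⟨m', hm'⟩

/-- the flat without the coordinate `l` -/
noncomputable def coneDrop {d j : ℕ} (φ : NM d (j + 1)) (l : Fin (j + 1)) (g : Fin d → Fin j)
    (hg : ∀ m, l.succAbove (g m) = φ.I m) : NM d j where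
  M i := φ.M (l.succAbove i)
  v i := φ.v (l.succAbove i)
  I := g
  hM m := by rw [hg, φ.hM]
  hv m := by rw [hg, φ.hv]

theorem cone_one_a (NCOMP : ST_NCOMP) (HYP : ST_HYP) {k d j : ℕ} (A : Set (Fin k → ℝ))
    (ψ : NM j k) (φ : NM d j)
    (ih : ∀ j' < j, ∀ (ψ' : NM j' k) (φ' : NM d j'), ConeP d (nev ψ' ⁻¹' A) φ')
    (f : KForm j) (hf : f.1 ≠ 0) (h0 : (coneComp φ f).1 = 0) (h1 : (coneComp φ f).2 = 0) :
    ConeF d (nev ψ ⁻¹' A) φ [f] := by
  obtain ⟨l, hl, hfl⟩ := cone_index φ f hf h0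
  have hz : ∀ x, kev f (nev φ x) = 0 := by
    intro x
    rw [← cone_kev_comp]
    unfold kev
    rw [h0, h1]
    simp
  obtain _ | j := j
  · exact l.elim0
  obtain ⟨κ, hκI, hκ0, hκ⟩ := HYP j f l hfl
  have hex : ∀ m, ∃ z, l.succAbove z = φ.I m := fun m => Fin.exists_succAbove_eq (hl m)
  choose g hg using hex
  obtain ⟨H, Z, a, b, c, e⟩ := ih j (Nat.lt_succ_self j) (ncomp ψ κ) (coneDrop φ l g hg)
  have hd : ∀ x, nev (coneDrop φ l g hg) x = fun i => nev φ x (l.succAbove i) := fun x => rfl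
  refine ⟨f :: H.map (conePull l), Z, ?_, c, ?_⟩
  · intro h hh x
    rcases List.mem_cons.1 hh with h' | h'
    · rw [h']
      exact hz x
    · obtain ⟨h'', hm, rfl⟩ := List.mem_map.1 h'
      rw [cone_kev_pull, ← hd]
      exact a h'' hm x
  · intro w hw
    obtain ⟨ε, hε, he⟩ := e w hw
    refine ⟨ε, hε, fun p hp q hq hpr hqr hs => ?_⟩
    have hsf := hs f List.mem_cons_self
    by_cases hp0 : kev f p = 0
    · have hq0 : kev f q = 0 := by
        rw [hp0, sign_zero] at hsf
        exact sign_eq_zero_iff.1 hsf.symm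
      left
      have hball : ∀ p : Fin (j + 1) → ℝ, p ∈ Metric.ball (nev φ w) ε →
          (fun i => p (l.succAbove i)) ∈ Metric.ball (nev (coneDrop φ l g hg) w) ε := by
        intro p hp
        rw [Metric.mem_ball] at hp ⊢
        refine lt_of_le_of_lt ((dist_pi_le_iff dist_nonneg).2 fun i => ?_) hp
        rw [hd]
        exact dist_le_pi_dist p (nev φ w) (l.succAbove i)
      have hran : ∀ p : Fin (j + 1) → ℝ, kev f p = 0 → p ∉ Set.range (nev φ) →
          (fun i => p (l.succAbove i)) ∉ Set.range (nev (coneDrop φ l g hg)) := by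
        rintro p hp0 hpr ⟨x, hx⟩
        apply hpr
        refine ⟨x, ?_⟩
        rw [← hκ p hp0, ← hx, hd, hκ _ (hz x)]
      have hmem : ∀ p : Fin (j + 1) → ℝ, kev f p = 0 →
          (p ∈ nev ψ ⁻¹' A ↔ (fun i => p (l.succAbove i)) ∈ nev (ncomp ψ κ) ⁻¹' A) := by
        intro p hp0
        rw [Set.mem_preimage, Set.mem_preimage, NCOMP, hκ p hp0]
      rw [hmem p hp0, hmem q hq0]
      refine he _ (hball p hp) _ (hball q hq) (hran p hp0 hpr) (hran q hq0 hqr) fun h hh => ?_
      have h2 := hs (conePull l h) (List.mem_cons_of_mem _ (List.mem_map_of_mem hh))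
      rwa [cone_kev_pull, cone_kev_pull] at h2
    · right
      intro f' hf' t ht
      rw [List.mem_singleton.1 hf']
      obtain ⟨u, v, hu, hv, huv, rfl⟩ := ht
      rw [cone_kev_affine f p q u v huv]
      exact cone_nonzero hp0 hsf hu hv huv

theorem cone_one (NCOMP : ST_NCOMP) (HYP : ST_HYP) {k d j : ℕ} (A : Set (Fin k → ℝ))
    (ψ : NM j k) (φ : NM d j)
    (ih : ∀ j' < j, ∀ (ψ' : NM j' k) (φ' : NM d j'), ConeP d (nev ψ' ⁻¹' A) φ')
    (f : KForm j) (hf : f.1 ≠ 0) : ConeF d (nev ψ ⁻¹' A) φ [f] := by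
  by_cases h0 : (coneComp φ f).1 = 0
  · by_cases h1 : (coneComp φ f).2 = 0
    · exact cone_one_a NCOMP HYP A ψ φ ih f hf h0 h1
    · refine ⟨[], [], fun h hh => absurd hh List.not_mem_nil,
        fun h hh => absurd hh List.not_mem_nil, fun w _ => ?_⟩
      have h2 : kev f (nev φ w) ≠ 0 := by
        rw [← cone_kev_comp]
        unfold kev
        rw [h0]
        simpa using h1
      obtain ⟨ε, hε, hb⟩ := cone_ball f _ h2
      refine ⟨ε, hε, fun p hp q hq _ _ _ => Or.inr fun g hg => ?_⟩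
      rw [List.mem_singleton.1 hg]
      exact hb p hp q hq
  · refine ⟨[], [coneComp φ f], fun h hh => absurd hh List.not_mem_nil, ?_, fun w hw => ?_⟩
    · intro z hz
      rw [List.mem_singleton.1 hz]
      exact h0
    · have h2 : kev f (nev φ w) ≠ 0 := by
        rw [← cone_kev_comp]
        exact hw _ List.mem_cons_self
      obtain ⟨ε, hε, hb⟩ := cone_ball f _ h2
      refine ⟨ε, hε, fun p hp q hq _ _ _ => Or.inr fun g hg => ?_⟩
      rw [List.mem_singleton.1 hg]
      exact hb p hp q hq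

theorem cone_list (NCOMP : ST_NCOMP) (HYP : ST_HYP) {k d j : ℕ} (A : Set (Fin k → ℝ))
    (ψ : NM j k) (φ : NM d j)
    (ih : ∀ j' < j, ∀ (ψ' : NM j' k) (φ' : NM d j'), ConeP d (nev ψ' ⁻¹' A) φ')
    (L : List (KForm j)) (hL : ∀ f ∈ L, f.1 ≠ 0) : ConeF d (nev ψ ⁻¹' A) φ L := by
  induction L with
  | nil =>
    exact ⟨[], [], fun h hh => absurd hh List.not_mem_nil,
        fun h hh => absurd hh List.not_mem_nil, fun w _ => ⟨1, one_pos,
          fun p _ q _ _ _ _ => Or.inr fun f hf => absurd hf List.not_mem_nil⟩⟩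
  | cons f L IH =>
    exact cone_append _ φ f L (cone_one NCOMP HYP A ψ φ ih f (hL f List.mem_cons_self))
      (IH fun g hg => hL g (List.mem_cons_of_mem _ hg))

/-- equations of a flat -/
noncomputable def coneEq {d j : ℕ} (φ : NM d j) (t : Fin j) : KForm j :=
  (Pi.single t 1 - ∑ m, φ.M t m • Pi.single (φ.I m) (1 : KK), -φ.v t)

theorem cone_kev_eq {d j : ℕ} (φ : NM d j) (t : Fin j) (p : Fin j → ℝ) :
    kev (coneEq φ t) p = p t - nev φ (fun m => p (φ.I m)) t := by
  unfold kev coneEq nev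
  have h1 : ∀ i : Fin j, (((Pi.single t 1 - ∑ m, φ.M t m • Pi.single (φ.I m) (1 : KK) :
      Fin j → KK) i : KK) : ℝ) * p i =
      (if i = t then p i else 0) - ∑ m, (φ.M t m : ℝ) * (if i = φ.I m then p i else 0) := by
    intro i
    simp only [Pi.sub_apply, Finset.sum_apply, Pi.smul_apply, smul_eq_mul, Pi.single_apply]
    push_cast
    rw [sub_mul, Finset.sum_mul]
    congr 1
    · split_ifs <;> simp
    · refine Finset.sum_congr rfl fun m _ => ?_
      split_ifs <;> simp
  have h2 : ∑ i, (((Pi.single t 1 - ∑ m, φ.M t m • Pi.single (φ.I m) (1 : KK) :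
      Fin j → KK) i : KK) : ℝ) * p i = p t - ∑ m, (φ.M t m : ℝ) * p (φ.I m) := by
    rw [Finset.sum_congr rfl fun i _ => h1 i, Finset.sum_sub_distrib, Finset.sum_comm]
    congr 1
    · rw [Finset.sum_ite_eq' Finset.univ t p, if_pos (Finset.mem_univ _)]
    · refine Finset.sum_congr rfl fun m _ => ?_
      rw [← Finset.mul_sum, Finset.sum_ite_eq' Finset.univ (φ.I m) p,
        if_pos (Finset.mem_univ _)]
  rw [h2]
  push_cast
  ring

theorem st_CONE (NCOMP : ST_NCOMP) (NID : ST_NID) (NB : ST_NB) (HYP : ST_HYP)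
    (SEG : ST_SEG) : ST_CONE := by
  intro k d A hA
  have key : ∀ (j : ℕ) (ψ : NM j k) (φ : NM d j), ConeP d (nev ψ ⁻¹' A) φ := by
    intro j
    induction j using Nat.strong_induction_on with
    | _ j ih =>
      intro ψ φ
      by_cases hdj : d < j
      · obtain ⟨L, hL0, hL⟩ := hA j ψ hdj
        obtain ⟨H, Z, a, b, c⟩ := cone_list NCOMP HYP A ψ φ ih L hL0
        refine ⟨H ++ (List.finRange j).map (coneEq φ), Z, ?_, ?_, b, ?_⟩
        · intro h hh x
          rcases List.mem_append.1 hh with h' | h'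
          · exact a h h' x
          · obtain ⟨t, _, rfl⟩ := List.mem_map.1 h'
            rw [cone_kev_eq]
            have h3 : (fun m => nev φ x (φ.I m)) = x := funext fun m => (NB d j φ).2.1 x m
            rw [h3, sub_self]
        · intro p hp
          refine ⟨fun m => p (φ.I m), funext fun t => ?_⟩
          have h3 := hp (coneEq φ t) (List.mem_append_right _
            (List.mem_map_of_mem (List.mem_finRange t)))
          rw [cone_kev_eq] at h3
          linarith
        · intro w hw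
          obtain ⟨ε, hε, he⟩ := c w hw
          refine ⟨ε, hε, fun p hp q hq hpr hqr hs => ?_⟩
          rcases he p hp q hq hpr hqr (fun h hh => hs h (List.mem_append_left _ hh))
            with r | r
          · exact r
          · refine SEG _ _ p q fun t ht hfr => ?_
            obtain ⟨f, hf, hf0⟩ := hL t hfr
            exact r f hf t ht hf0
      · have hle : d ≤ j := by
          have := Fintype.card_le_of_injective φ.I (cone_I_inj φ)
          simpa using this
        have hje : j = d := by omega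
        subst hje
        have hsurj : Function.Surjective φ.I := Finite.surjective_of_injective (cone_I_inj φ)
        have huniv : ∀ p, p ∈ Set.range (nev φ) := by
          intro p
          refine ⟨fun m => p (φ.I m), funext fun t => ?_⟩
          obtain ⟨m, rfl⟩ := hsurj t
          exact (NB _ _ φ).2.1 _ m
        refine ⟨[], [], fun h hh => absurd hh List.not_mem_nil, fun p _ => huniv p,
          fun h hh => absurd hh List.not_mem_nil, fun w _ => ⟨1, one_pos, ?_⟩⟩
        intro p _ q _ hpr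
        exact absurd (huniv p) hpr
  intro φ
  have h := key k (nid k) φ
  have e : nev (nid k) ⁻¹' A = A := by
    ext x
    rw [Set.mem_preimage, NID]
  rw [e] at h
  exact h

end Pool.Agent.Helper54.DI
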